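import Pool.Agent.MP_be5fd0_gt.Mg.H27_Main

/-! The space of symplectic forms on the four-torus in the class of the standard form is not
connected, even in the topology of uniform convergence. -/

namespace Pool.Agent.Results.MP_be5fd0_gt.Disconnected

open Pool.Agent.MP_be5fd0_gt

theorem result :
    ∃ σ₀ : (Fin 4 → ℝ) → (Fin 4 → ℝ) [⋀^Fin 2]→L[ℝ] ℝ,
      (∀ x u v, σ₀ x ![u, v] = u 0 * v 1 - u 1 * v 0 + u 2 * v 3 - u 3 * v 2) ∧ IsSymp σ₀ ∧
      ¬ IsPreconnected {σ : UniformFun (Fin 4 → ℝ) ((Fin 4 → ℝ) [⋀^Fin 2]→L[ℝ] ℝ) |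
        IsSymp (UniformFun.toFun σ) ∧ Cohom σ₀ (UniformFun.toFun σ)} :=
  T.thFinal T.okHtp T.okGH T.okNoH

end Pool.Agent.Results.MP_be5fd0_gt.Disconnected
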