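import Pool.Agent.MP_be5fd0_gt.Mg.Hodge

/-! Two cohomologous symplectic forms on the four-torus, each of which vanishes on a constant
plane field (a linear Lagrangian foliation of arbitrary slope), are joined by a smooth path of
cohomologous symplectic forms. -/

namespace Pool.Agent.Results.MP_be5fd0_gt.LagrangianFoliation

open Pool.Agent.MP_be5fd0_gt
open scoped ContDiff

theorem result (σ₀ σ₁ : (Fin 4 → ℝ) → (Fin 4 → ℝ) [⋀^Fin 2]→L[ℝ] ℝ)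
    (h₀ : IsSymp σ₀) (h₁ : IsSymp σ₁) (hc : Cohom σ₀ σ₁)
    (L₀ : ∃ v w : Fin 4 → ℝ, LinearIndependent ℝ ![v, w] ∧ ∀ x, σ₀ x ![v, w] = 0)
    (L₁ : ∃ v w : Fin 4 → ℝ, LinearIndependent ℝ ![v, w] ∧ ∀ x, σ₁ x ![v, w] = 0) :
    ∃ Ω : ℝ → (Fin 4 → ℝ) → (Fin 4 → ℝ) [⋀^Fin 2]→L[ℝ] ℝ,
      ContDiff ℝ ∞ (fun p : ℝ × (Fin 4 → ℝ) => Ω p.1 p.2) ∧ Ω 0 = σ₀ ∧ Ω 1 = σ₁ ∧
      ∀ t, IsSymp (Ω t) ∧ Cohom σ₀ (Ω t) := by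
  obtain ⟨a, ha⟩ := exists_const h₀.1 h₀.2.1
  have hb : Ex a σ₁ := by
    obtain ⟨l, h1, h2⟩ := hc
    rw [show σ₁ = _ from funext h2]
    exact ha.add h1
  obtain ⟨v, w, hv, hv'⟩ := L₀
  obtain ⟨v', w', hw, hw'⟩ := L₁
  obtain ⟨Ω, h1, h2, h3, h4⟩ :=
    (main ⟨ha, h₀.2.2⟩ hv hv').symm.trans (main ⟨hb, h₁.2.2⟩ hw hw')
  refine ⟨Ω, h1, h2 0 le_rfl, h3 1 le_rfl, fun t =>
    ⟨⟨(h4 t).1.isForm, (h4 t).1.closed, (h4 t).2⟩, ?_⟩⟩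
  obtain ⟨l, l1, l2⟩ := ha
  obtain ⟨m, m1, m2⟩ := (h4 t).1
  refine ⟨fun x => m x + (-1 : ℝ) • l x, m1.add (l1.smul _), fun x => ?_⟩
  have e : extDeriv (fun x => (-1 : ℝ) • l x) x = (-1 : ℝ) • extDeriv l x := extDeriv_smul _ _
  rw [extDeriv_fun_add (m1.diff x) ((l1.smul _).diff x), e, m2, l2]
  module

end Pool.Agent.Results.MP_be5fd0_gt.LagrangianFoliation
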