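import Pool.Agent.MP_be5fd0_gt.H22.Main

/-! Two cohomologous pinched symplectic forms on the four-torus are joined by a smooth path of
cohomologous symplectic forms. -/

namespace Pool.Agent.Results.MP_be5fd0_gt.Pinched

open Pool.Agent.MP_be5fd0_gt Pool.Agent.MP_be5fd0_gt.H22
open scoped ContDiff

theorem result (σ₀ σ₁ : (Fin 4 → ℝ) → (Fin 4 → ℝ) [⋀^Fin 2]→L[ℝ] ℝ)
    (h₀ : IsSymp σ₀) (h₁ : IsSymp σ₁) (hc : Cohom σ₀ σ₁) (p₀ : Pinched σ₀) (p₁ : Pinched σ₁) :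
    ∃ Ω : ℝ → (Fin 4 → ℝ) → (Fin 4 → ℝ) [⋀^Fin 2]→L[ℝ] ℝ,
      ContDiff ℝ ∞ (fun p : ℝ × (Fin 4 → ℝ) => Ω p.1 p.2) ∧ Ω 0 = σ₀ ∧ Ω 1 = σ₁ ∧
      ∀ t, IsSymp (Ω t) ∧ Cohom σ₀ (Ω t) := by
  obtain ⟨a, ha⟩ := exists_const h₀.1 h₀.2.1
  have hb : Ex a σ₁ := by
    obtain ⟨l, h1, h2⟩ := hc
    rw [show σ₁ = _ from funext h2]
    exact ha.add h1
  obtain ⟨Ω, h1, h2, h3, h4⟩ :=
    (pinched_rel ⟨ha, h₀.2.2⟩ p₀).trans (pinched_rel ⟨hb, h₁.2.2⟩ p₁).symm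
  refine ⟨Ω, h1, h2 0 le_rfl, h3 1 le_rfl, fun t =>
    ⟨⟨(h4 t).1.isForm, (h4 t).1.closed, (h4 t).2⟩, ?_⟩⟩
  obtain ⟨l, l1, l2⟩ := ha
  obtain ⟨m, m1, m2⟩ := (h4 t).1
  refine ⟨fun x => m x + (-1 : ℝ) • l x, m1.add (l1.smul _), fun x => ?_⟩
  have e : extDeriv (fun x => (-1 : ℝ) • l x) x = (-1 : ℝ) • extDeriv l x := extDeriv_smul _ _
  rw [extDeriv_fun_add (m1.diff x) ((l1.smul _).diff x), e, m2, l2]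
  module

end Pool.Agent.Results.MP_be5fd0_gt.Pinched
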