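import Pool.Agent.MP_be5fd0_gt.H13.Defs
import Pool.Agent.MP_be5fd0_gt.Mg.H13_Good

/-! On the four-torus, cohomologous symplectic forms which are deformation equivalent to constant
forms become isotopic on a finite cover. -/

namespace Pool.Agent.Results.MP_be5fd0_gt.VirtualIsotopy

open Pool.Agent.MP_be5fd0_gt Pool.Agent.MP_be5fd0_gt.H13
open scoped ContDiff

theorem result (σ₀ σ₁ : (Fin 4 → ℝ) → (Fin 4 → ℝ) [⋀^Fin 2]→L[ℝ] ℝ)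
    (h₀ : DefConst σ₀) (h₁ : DefConst σ₁) (hc : Cohom σ₀ σ₁) :
    ∃ N₀ : ℕ, 0 < N₀ ∧ ∀ N : ℕ, 0 < N → N₀ ∣ N →
      ∃ Ψ : ℝ → (Fin 4 → ℝ) → (Fin 4 → ℝ) [⋀^Fin 2]→L[ℝ] ℝ,
        ContDiff ℝ ∞ (fun p : ℝ × (Fin 4 → ℝ) => Ψ p.1 p.2) ∧
        Ψ 0 = (fun x => σ₀ ((N : ℝ) • x)) ∧ Ψ 1 = (fun x => σ₁ ((N : ℝ) • x)) ∧
        ∀ t, IsSymp (Ψ t) ∧ Cohom σ₀ (Ψ t) := by
  obtain ⟨Ω, b, c0, s0, rfl, e0⟩ := h₀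
  obtain ⟨Ω', b', c1, s1, rfl, e1⟩ := h₁
  obtain ⟨a, ha⟩ := exists_const (s0 0).1 (s0 0).2.1
  have hb : Ex a (Ω' 0) := by
    obtain ⟨l, h1, h2⟩ := hc
    rw [show Ω' 0 = _ from funext h2]
    exact ha.add h1
  obtain ⟨N₀, p0, r0⟩ := (good_of_path c0 s0 e0 ha).rel
  obtain ⟨N₁, p1, r1⟩ := (good_of_path c1 s1 e1 hb).rel
  refine ⟨N₀ * N₁, Nat.mul_pos p0 p1, fun N hN hd => ?_⟩
  obtain ⟨Ψ, h1, h2, h3, h4⟩ := (r0 N hN ((Dvd.intro _ rfl).trans hd)).trans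
    (r1 N hN ((Dvd.intro_left _ rfl).trans hd)).symm
  refine ⟨Ψ, h1, h2 0 le_rfl, h3 1 le_rfl, fun t =>
    ⟨⟨(h4 t).1.isForm, (h4 t).1.closed, (h4 t).2⟩, ?_⟩⟩
  obtain ⟨l, l1, l2⟩ := ha
  obtain ⟨m, m1, m2⟩ := (h4 t).1
  refine ⟨fun x => m x + (-1 : ℝ) • l x, m1.add (l1.smul _), fun x => ?_⟩
  have e : extDeriv (fun x => (-1 : ℝ) • l x) x = (-1 : ℝ) • extDeriv l x := extDeriv_smul _ _
  rw [extDeriv_fun_add (m1.diff x) ((l1.smul _).diff x), e, m2, l2]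
  module

end Pool.Agent.Results.MP_be5fd0_gt.VirtualIsotopy
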